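import Mathlib
import Pool.Agent.Helper15.T4.All

set_option autoImplicit false

namespace Pool.Agent.Results.MP_e0a484_co.AlmostAllCubic

/-- For every `g ≥ 3`, the proportion of the graphs with a total colouring with four colours, among the
cubic graphs on the vertex set `Fin (2 * N)` all of whose cycles have length at least `g`, tends to `1`
as `N` tends to infinity. (A total colouring: vertex colours `c`, edge colours `d`.) -/
theorem result : ∀ g : ℕ, 3 ≤ g → Filter.Tendsto (fun N : ℕ =>
    (Set.ncard {G : SimpleGraph (Fin (2 * N)) |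
      ((∀ v, Set.ncard (G.neighborSet v) = 3) ∧
        ∀ (u : Fin (2 * N)) (p : G.Walk u u), p.IsCycle → g ≤ p.length) ∧
      ∃ (c : Fin (2 * N) → Fin 4) (d : Fin (2 * N) → Fin (2 * N) → Fin 4),
        (∀ u v, G.Adj u v → d u v = d v u) ∧
        (∀ u v, G.Adj u v → c u ≠ c v) ∧
        (∀ u v w, G.Adj u v → G.Adj u w → v ≠ w → d u v ≠ d u w) ∧
        (∀ u v, G.Adj u v → d u v ≠ c u)} : ℝ) /
    (Set.ncard {G : SimpleGraph (Fin (2 * N)) |
      (∀ v, Set.ncard (G.neighborSet v) = 3) ∧
        ∀ (u : Fin (2 * N)) (p : G.Walk u u), p.IsCycle → g ≤ p.length} : ℝ))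
    Filter.atTop (nhds 1) :=
  Pool.Agent.Helper15.T4.All.all_MAIN

end Pool.Agent.Results.MP_e0a484_co.AlmostAllCubic
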