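import Mathlib
import Pool.Agent.Helper86.TC8.All

set_option autoImplicit false

namespace Pool.Agent.Results.MP_e0a484_co.LargeGirth

/-- There is a number `g` such that every finite cubic graph in which all cycles have length at least
`g` has a total colouring with 4 colours (vertex colours `c`, edge colours `d`). -/
theorem result : ∃ g : ℕ, ∀ (V : Type) [Fintype V] [DecidableEq V] (G : SimpleGraph V)
      [DecidableRel G.Adj],
      G.IsRegularOfDegree 3 →
      (∀ (u : V) (p : G.Walk u u), p.IsCycle → g ≤ p.length) →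
      ∃ (c : V → Fin 4) (d : V → V → Fin 4),
        (∀ u v : V, G.Adj u v → d u v = d v u) ∧
        (∀ u v : V, G.Adj u v → c u ≠ c v) ∧
        (∀ u v w : V, G.Adj u v → G.Adj u w → v ≠ w → d u v ≠ d u w) ∧
        (∀ u v : V, G.Adj u v → d u v ≠ c u) := by
  obtain ⟨g, hg⟩ := Pool.Agent.Helper86.TC8.all_FINAL
  refine ⟨g, fun V _ _ G _ h3 hc => hg V G (fun v => ?_) hc⟩
  have h := h3 v
  rw [← SimpleGraph.card_neighborSet_eq_degree] at h
  rw [← Nat.card_coe_set_eq, Nat.card_eq_fintype_card]
  exact h

end Pool.Agent.Results.MP_e0a484_co.LargeGirth
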